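import Mathlib

/-!
Padding: a power of two as a sum of powers of two with a prescribed sum of squares of exponents.
-/

namespace Pool.Agent.Lib.MP_f6c7cf_nt.MS

open Finset

/-- `V` is a sum of at most `k` powers of two whose exponents have sum of squares `S`. -/
def Rep (k V S : ℕ) : Prop :=
  ∃ l : List ℕ, l.length ≤ k ∧ (l.map fun a => 2 ^ a).sum = V ∧ (l.map fun a => a ^ 2).sum = S

theorem Rep.add {k V S k' V' S' : ℕ} (h : Rep k V S) (h' : Rep k' V' S') :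
    Rep (k + k') (V + V') (S + S') := by
  obtain ⟨l, a, b, c⟩ := h
  obtain ⟨l', a', b', c'⟩ := h'
  refine ⟨l ++ l', by rw [List.length_append]; omega, ?_, ?_⟩
  · rw [List.map_append, List.sum_append, b, b']
  · rw [List.map_append, List.sum_append, c, c']

theorem Rep.of_eq {k V S k' V' S' : ℕ} (h : Rep k V S) (a : k ≤ k') (b : V = V') (c : S = S') :
    Rep k' V' S' := by
  obtain ⟨l, a', b', c'⟩ := h
  exact ⟨l, a'.trans a, b'.trans b, c'.trans c⟩

theorem rep_one (a : ℕ) : Rep 1 (2 ^ a) (a ^ 2) := ⟨[a], by simp, by simp, by simp⟩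

theorem rep_sum (s : Finset ℕ) (k V S : ℕ → ℕ) (h : ∀ i ∈ s, Rep (k i) (V i) (S i)) :
    Rep (∑ i ∈ s, k i) (∑ i ∈ s, V i) (∑ i ∈ s, S i) := by
  induction s using Finset.induction_on with
  | empty => exact ⟨[], by simp, by simp, by simp⟩
  | insert a s ha ih =>
    rw [sum_insert ha, sum_insert ha, sum_insert ha]
    exact (h a (mem_insert_self _ _)).add (ih fun i hi => h i (mem_insert_of_mem hi))

/-- sum of squares of the exponents of an unsplit chain -/
def base (M h : ℕ) : ℕ := (M + 2) ^ 2 + ∑ i ∈ range h, (M + 2 + i) ^ 2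

theorem geo (a h : ℕ) : 2 ^ a + ∑ i ∈ range h, 2 ^ (a + i) = 2 ^ (a + h) := by
  induction h with
  | zero => simp
  | succ h ih => rw [sum_range_succ, ← add_assoc, ih, ← add_assoc, pow_succ]; ring

theorem chain (M h : ℕ) (hM : 2 ≤ M) (A : Finset ℕ) (hA : A ⊆ range h) :
    ∃ S, Rep (1 + h + #A) (2 ^ (M + 2 + h)) S ∧
      S + 2 * #A = base M h + ∑ i ∈ A, (M + i) ^ 2 := by
  have e := rep_sum (range h) (fun i => 1 + if i ∈ A then 1 else 0) (fun i => 2 ^ (M + 2 + i))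
    (fun i => if i ∈ A then 2 * (M + 1 + i) ^ 2 else (M + 2 + i) ^ 2) (fun i _ => by
      split_ifs
      · exact ((rep_one (M + 1 + i)).add (rep_one (M + 1 + i))).of_eq le_rfl (by ring) (by ring)
      · exact rep_one _)
  have hf : (range h).filter (· ∈ A) = A := by
    ext i; simp only [mem_filter]; exact ⟨fun x => x.2, fun x => ⟨hA x, x⟩⟩
  have c1 : ∑ i ∈ range h, (if i ∈ A then 1 else 0) = #A := by
    rw [← card_filter, hf]
  refine ⟨_, ((rep_one (M + 2)).add e).of_eq (le_of_eq ?_) (geo _ _) rfl, ?_⟩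
  · rw [sum_add_distrib, c1]; simp; ring
  · rw [base, add_assoc, add_assoc, ← c1, mul_sum, ← sum_add_distrib]
    refine congrArg _ ?_
    conv_rhs => rw [← hf, sum_filter, ← sum_add_distrib]
    refine sum_congr rfl fun i _ => ?_
    split_ifs <;> ring

theorem ivt (f : ℕ → ℕ) (X n : ℕ) (h0 : f 0 ≤ X) (hn : X < f n) :
    ∃ i < n, f i ≤ X ∧ X < f (i + 1) := by
  induction n with
  | zero => omega
  | succ n ih =>
    by_cases h : X < f n
    · obtain ⟨i, a, b⟩ := ih h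
      exact ⟨i, by omega, b⟩
    · exact ⟨n, by omega, by omega, hn⟩

/-- sum over a block -/
def blk (M t s : ℕ) : ℕ := ∑ i ∈ range t, (M + s + i) ^ 2

theorem blk_gap (M t : ℕ) : blk M t 0 + 2 * M * t ^ 2 ≤ blk M t t := by
  have : 2 * M * t ^ 2 = ∑ _i ∈ range t, 2 * M * t := by simp; ring
  rw [this, blk, blk, ← sum_add_distrib]
  exact sum_le_sum fun i _ => by nlinarith [Nat.zero_le (t * i), Nat.zero_le (t * t)]

theorem coarse (M t X : ℕ) (h0 : blk M t 0 ≤ X) (h1 : X < blk M t t) :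
    ∃ A ⊆ range (2 * t), #A = t ∧ ∑ i ∈ A, (M + i) ^ 2 ≤ X ∧
      X < ∑ i ∈ A, (M + i) ^ 2 + 2 * (M + 2 * t) := by
  obtain ⟨s, hs, a, b⟩ := ivt (blk M t) X t h0 h1
  set J := ∑ i ∈ range (t + 1), (M + s + i) ^ 2 with hJ
  have e0 : J = blk M t s + (M + s + t) ^ 2 := sum_range_succ _ _
  have e1 : J = blk M t (s + 1) + (M + s) ^ 2 := by
    rw [hJ, sum_range_succ', blk]
    refine congrArg₂ _ (sum_congr rfl fun i _ => by ring) (by ring)
  obtain ⟨j, hj, c, d⟩ := ivt (fun j => J - (M + s + (t - j)) ^ 2) X t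
    (by simp only [Nat.sub_zero]; omega) (by simp only [Nat.sub_self, add_zero]; omega)
  obtain ⟨r, hr⟩ : ∃ r, t - j = r + 1 := ⟨t - j - 1, by omega⟩
  have hr' : t - (j + 1) = r := by omega
  simp only [hr, hr'] at c d
  have hm : r + 1 ∈ range (t + 1) := mem_range.2 (by omega)
  have e2 := add_sum_erase (range (t + 1)) (fun i => (M + s + i) ^ 2) hm
  refine ⟨((range (t + 1)).erase (r + 1)).image (s + ·), ?_, ?_, ?_⟩
  · intro i hi
    obtain ⟨u, hu, rfl⟩ := mem_image.1 hi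
    have := mem_range.1 (mem_of_mem_erase hu)
    exact mem_range.2 (by omega)
  · rw [card_image_of_injective _ (add_right_injective s), card_erase_of_mem hm, card_range]
    rfl
  · rw [sum_image fun _ _ _ _ h => add_right_injective s h]
    simp only [← add_assoc] at e2 c ⊢
    rw [← hJ] at e2
    have : (M + s + r + 1) ^ 2 = (M + s + r) ^ 2 + 2 * (M + s + r) + 1 := by ring
    omega

theorem pair (M t e : ℕ) (hM : 2 ≤ M) (he : e < t) :
    ∃ S, Rep (4 * t + 4) (2 * 2 ^ (M + 2 + 2 * t)) S ∧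
      S + 4 = 2 * base M (2 * t) + 2 * (M + t) ^ 2 + 2 * e ^ 2 := by
  obtain ⟨S, a, b⟩ := chain M (2 * t) hM {t + e} (by simp; omega)
  obtain ⟨S', a', b'⟩ := chain M (2 * t) hM {t - e} (by simp; omega)
  rw [card_singleton] at a b a' b'
  rw [sum_singleton] at b b'
  obtain ⟨u, rfl⟩ : ∃ u, t = u + e := ⟨t - e, by omega⟩
  rw [Nat.add_sub_cancel] at b'
  refine ⟨S + S', (a.add a').of_eq (by omega) (by ring) rfl, ?_⟩
  have : (M + (u + e + e)) ^ 2 + (M + u) ^ 2 = 2 * (M + (u + e)) ^ 2 + 2 * e ^ 2 := by ring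
  omega

/-- the fixed part of the padding -/
def fix (M t : ℕ) : ℕ :=
  6 * (M + 2 + 2 * t) ^ 2 + 10 * base M (2 * t) + 8 * (M + t) ^ 2 + M ^ 2 + (2 * M + 1) +
    blk M t 0

/-- every value in a long interval is the sum of squares of the exponents -/
theorem pad (M t Y : ℕ) (hM : 2 ≤ M) (ht : 2 * M + 2 * t + 1 < t ^ 2) (hY : Y < 2 * M * t ^ 2) :
    ∃ S, Rep (21 * t + 25) (2 ^ (M + 6 + 2 * t)) S ∧ S + 2 * t + 18 = fix M t + Y := by
  have ht1 : 1 ≤ t := by
    rcases Nat.eq_zero_or_pos t with rfl | h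
    · simp at ht
    · exact h
  obtain ⟨A, hA, cA, l, u⟩ := coarse M t (blk M t 0 + Y) (by omega)
    (by have := blk_gap M t; omega)
  obtain ⟨S0, r0, e0⟩ := chain M (2 * t) hM A hA
  obtain ⟨ε, N, hε, hN, eN⟩ : ∃ ε N, ε < 2 ∧ N < t ^ 2 ∧
      M ^ 2 + (2 * M + 1) + blk M t 0 + Y = ∑ i ∈ A, (M + i) ^ 2 + 2 * N + (M + ε) ^ 2 := by
    obtain ⟨R, hR⟩ := Nat.exists_eq_add_of_le l
    rcases Nat.even_or_odd' R with ⟨q, hq | hq⟩
    · refine ⟨1, q, by omega, by omega, ?_⟩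
      have : (M + 1) ^ 2 = M ^ 2 + (2 * M + 1) := by ring
      omega
    · exact ⟨0, q + M + 1, by omega, by omega, by rw [add_zero]; omega⟩
  obtain ⟨S9, r9, e9⟩ := chain M (2 * t) hM {ε} (by simp; omega)
  rw [card_singleton] at r9 e9
  rw [sum_singleton] at e9
  obtain ⟨a, b, c, d, h4⟩ := Nat.sum_four_squares N
  have lt : ∀ e, e ^ 2 ≤ N → e < t := fun e he => lt_of_pow_lt_pow_left₀ 2 (Nat.zero_le _)
    (he.trans_lt hN)
  obtain ⟨S1, r1, e1⟩ := pair M t a hM (lt a (by omega))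
  obtain ⟨S2, r2, e2⟩ := pair M t b hM (lt b (by omega))
  obtain ⟨S3, r3, e3⟩ := pair M t c hM (lt c (by omega))
  obtain ⟨S4, r4, e4⟩ := pair M t d hM (lt d (by omega))
  have r5 := rep_one (M + 2 + 2 * t)
  have r6 := (r5.add r5).add r5
  refine ⟨_, ((((((r0.add r9).add r1).add r2).add r3).add r4).add (r6.add r6)).of_eq (by omega)
    (by ring) rfl, ?_⟩
  rw [fix]
  omega

theorem fix_le (M t m : ℕ) (h : M + 2 + 2 * t ≤ m) : fix M t ≤ (21 * t + 27) * m ^ 2 := by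
  have sq : ∀ a, a ≤ m → a ^ 2 ≤ m ^ 2 := fun a ha => Nat.pow_le_pow_left ha 2
  have b1 : ∑ i ∈ range (2 * t), (M + 2 + i) ^ 2 ≤ 2 * t * m ^ 2 := by
    simpa using sum_le_card_nsmul (range (2 * t)) _ (m ^ 2) fun i hi =>
      sq (M + 2 + i) (by have := mem_range.1 hi; omega)
  have b2 : blk M t 0 ≤ t * m ^ 2 := by
    simpa [blk] using sum_le_card_nsmul (range t) _ (m ^ 2) fun i hi =>
      sq (M + i) (by have := mem_range.1 hi; omega)
  have b3 := sq (M + 2) (by omega)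
  have b4 := sq (M + 2 + 2 * t) h
  have b5 := sq (M + t) (by omega)
  have b6 := sq M (by omega)
  have b7 : 2 * M + 1 ≤ (M + 2) ^ 2 := by nlinarith
  rw [fix, base]
  nlinarith

theorem bits (p m : ℕ) :
    p % 2 ^ m = ∑ i ∈ (range m).filter (fun i => p.testBit i = true), 2 ^ i := by
  rw [sum_filter]
  induction m with
  | zero => simp [Nat.mod_one]
  | succ m ih =>
    rw [sum_range_succ, ← ih, Nat.mod_pow_succ, Nat.testBit_eq_decide_div_mod_eq]
    rcases Nat.mod_two_eq_zero_or_one (p / 2 ^ m) with h | h <;> simp [h]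

/-- the padding applied to an odd number with `s` binary ones -/
theorem main (t n p T : ℕ) (ht : 1000000 ≤ t) (hn : 10 ^ 10 * (t - 1) ^ 6 ≤ n)
    (hn' : n ≤ 10 ^ 10 * t ^ 6) (hp : p % 2 = 1) (h1 : 2 ^ T ≤ p) (h2 : p < 2 ^ (T + 1))
    (hT : 299997 * t ≤ T) (hT' : T < 300000 * t) :
    ∃ V S w, Rep (#((range (300000 * t)).filter fun i => p.testBit i = true) + 22 * t) V S ∧
      V + 1 = p ∧ n = S + 4 * w ^ 2 := by
  set m := 300000 * t with hm
  set D := (range m).filter fun i => p.testBit i = true with hD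
  have hb : p = ∑ i ∈ D, 2 ^ i := by
    rw [← bits, Nat.mod_eq_of_lt (h2.trans_le (Nat.pow_le_pow_right two_pos hT'))]
  have m0 : 0 ∈ D := mem_filter.2 ⟨mem_range.2 (by omega), by simp [hp]⟩
  have mT : T ∈ D.erase 0 := mem_erase.2 ⟨by omega, mem_filter.2 ⟨mem_range.2 hT',
    Nat.testBit_of_two_pow_le_and_two_pow_add_one_gt h1 h2⟩⟩
  rw [← add_sum_erase _ _ m0, ← add_sum_erase _ _ mT] at hb
  set E := (D.erase 0).erase T with hE
  have cE : #E ≤ #D := card_erase_le.trans card_erase_le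
  have rE := rep_sum E (fun _ => 1) _ _ fun i _ => rep_one i
  have sE : ∑ i ∈ E, i ^ 2 ≤ m * m ^ 2 := by
    have hs : E ⊆ range m := ((erase_subset _ _).trans (erase_subset _ _)).trans (filter_subset _ _)
    refine (sum_le_sum_of_subset hs).trans ?_
    simpa using sum_le_card_nsmul (range m) _ (m ^ 2) fun i hi =>
      Nat.pow_le_pow_left (mem_range.1 hi).le 2
  obtain ⟨M, rfl⟩ : ∃ M, T = M + 6 + 2 * t := ⟨T - 6 - 2 * t, by omega⟩
  have fl := fix_le M t m (by omega)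
  have big : m * m ^ 2 + (21 * t + 27) * m ^ 2 ≤ n := by
    obtain ⟨u, rfl⟩ : ∃ u, t = u + 1 := ⟨t - 1, by omega⟩
    rw [Nat.add_sub_cancel] at hn
    have a1 : m ≤ 600000 * u := by omega
    have a2 : m ^ 2 ≤ (600000 * u) ^ 2 := Nat.pow_le_pow_left a1 2
    have a3 : 1000 ^ 3 ≤ u ^ 3 := Nat.pow_le_pow_left (by omega) 3
    calc _ = (m + (21 * (u + 1) + 27)) * m ^ 2 := by ring
      _ ≤ (1200000 * u) * (600000 * u) ^ 2 := Nat.mul_le_mul (by omega) a2
      _ = 432000000 * (1000 ^ 3 * u ^ 3) := by ring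
      _ ≤ 10 ^ 10 * (u ^ 3 * u ^ 3) := Nat.mul_le_mul (by norm_num) (Nat.mul_le_mul_right _ a3)
      _ = 10 ^ 10 * u ^ 6 := by ring
      _ ≤ n := hn
  have low : 2 * t + 18 ≤ fix M t := by rw [fix]; omega
  obtain ⟨Z, hZ⟩ : ∃ Z, n + 2 * t + 18 = ∑ i ∈ E, i ^ 2 + fix M t + Z :=
    ⟨_, (Nat.add_sub_cancel' (by omega)).symm⟩
  have w1 := Nat.sqrt_le' (Z / 4)
  have w2 := Nat.lt_succ_sqrt' (Z / 4)
  set w := Nat.sqrt (Z / 4)
  have w3 : w ≤ 50000 * t ^ 3 := by
    refine le_of_pow_le_pow_left₀ two_ne_zero (Nat.zero_le _) ?_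
    have : (50000 * t ^ 3) ^ 2 * 4 = 10 ^ 10 * t ^ 6 := by ring
    omega
  have w4 : w.succ ^ 2 = w ^ 2 + 2 * w + 1 := by rw [Nat.succ_eq_add_one]; ring
  have t3 : 1 ≤ t ^ 3 := Nat.one_le_pow _ _ (by omega)
  obtain ⟨S, rS, eS⟩ := pad M t (Z - 4 * w ^ 2) (by omega) (by nlinarith) (by
    have : 299000 * t * t ^ 2 ≤ M * t ^ 2 := Nat.mul_le_mul_right _ (by omega)
    have e : 299000 * t * t ^ 2 = 299000 * t ^ 3 := by ring
    rw [mul_assoc]
    omega)
  refine ⟨_, _, w, (rS.add rE).of_eq ?_ rfl rfl, by omega, by omega⟩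
  simp only [sum_const, smul_eq_mul, mul_one]
  omega

end Pool.Agent.Lib.MP_f6c7cf_nt.MS
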